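import Mathlib
import Pool.Agent.X147.SsdE

/-!
# Subset-sum 1-designs in cyclic groups: the complete classification (MP_9415b6_co, Q1)

For `1 ≤ k ≤ n` and `x ∈ ℤ/n` let `𝓑_k^x` be the family of all `k`-subsets of `ℤ/n` with sum `x`.
We determine all triples `(n, k, x)` for which `(ℤ/n, 𝓑_k^x)` is a 1-design.

Write `g = gcd(n, k)` and `s = n (n - 1) / 2`, and for a prime `p` let `q = p ^ v_p(k)`.
The structure is a 1-design if and only if either `k = n` and `x = s` in `ℤ/n`, or `k < n` and for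
every prime `p` dividing `n / g` at least one of the following holds:

1. `q ∤ x`;
2. `k < p q` and `g ∤ x`;
3. `n - k < p q` and `x ≢ s (mod g)`;
4. `n = p g`, `p q < k < 2 p q` and `g ∣ x`;
5. `n = p g`, `p q < n - k < 2 p q` and `x ≡ s (mod g)`.

Sketch of proof. Let `r(y)` be the number of blocks through `y`. The Fourier coefficient of `r` at
`u ≠ 0` is a sum over the fibre `{v : k v = u}`; this fibre contains a point `v₀` of order `d` where
every prime divisor of `d` occurs to a higher power in `d` than in `k`, and `d` divides the order of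
every element of the fibre. This allows to evaluate the coefficient as a nonzero multiple of the
number of `⌊(k-1)/d⌋`-subsets `T` of `{1, …, n/d - 1}` with `d ∑ T ≡ x (mod g)`. The rest is
elementary arithmetic.
-/

open Finset

namespace Pool.Agent.Results.MP_9415b6_co.CyclicOneDesigns

/-- `𝓑_k^x`: the family of all `k`-element subsets of `ℤ/n` with sum `x`. -/
def blocks (n : ℕ) [NeZero n] (k : ℕ) (x : ZMod n) : Finset (Finset (ZMod n)) :=
  ((univ : Finset (ZMod n)).powersetCard k).filter (fun A => ∑ a ∈ A, a = x)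

/-- `(ℤ/n, 𝓑_k^x)` is a 1-design: there is at least one block, and every point lies in exactly `r`
blocks, for one constant `r`. -/
def IsOneDesign (n : ℕ) [NeZero n] (k : ℕ) (x : ZMod n) : Prop :=
  (blocks n k x).Nonempty ∧
    ∃ r : ℕ, ∀ y : ZMod n, ((blocks n k x).filter (fun A => y ∈ A)).card = r

/-- The condition at the prime `p`, with `g = gcd(n, k)`, `q = p ^ v_p(k)` (the exact power of `p`
in `k`), `p q = p ^ (v_p(k) + 1)`, and `s = n (n - 1) / 2`: at least one of
* `q ∤ x`;
* `k < p q` and `g ∤ x`;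
* `n - k < p q` and `s ≢ x (mod g)`;
* `n = p g`, `p q < k < 2 p q` and `g ∣ x`;
* `n = p g`, `p q < n - k < 2 p q` and `s ≡ x (mod g)`. -/
def CondAt (n k x p : ℕ) : Prop :=
  ¬ (p ^ k.factorization p ∣ x) ∨
  (k < p ^ (k.factorization p + 1) ∧ ¬ n.gcd k ∣ x) ∨
  (n < k + p ^ (k.factorization p + 1) ∧ ¬ n * (n - 1) / 2 ≡ x [MOD n.gcd k]) ∨
  (n = p * n.gcd k ∧ p ^ (k.factorization p + 1) < k ∧
    k < 2 * p ^ (k.factorization p + 1) ∧ n.gcd k ∣ x) ∨
  (n = p * n.gcd k ∧ p ^ (k.factorization p + 1) + k < n ∧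
    n < k + 2 * p ^ (k.factorization p + 1) ∧ n * (n - 1) / 2 ≡ x [MOD n.gcd k])

/-- **Classification of the subset-sum 1-designs `(ℤ/n, 𝓑_k^x)`.** -/
theorem result (n : ℕ) [NeZero n] (k : ℕ) (hk1 : 1 ≤ k) (hkn : k ≤ n) (x : ZMod n) :
    IsOneDesign n k x ↔
      (k = n ∧ x = ((n * (n - 1) / 2 : ℕ) : ZMod n)) ∨
      (k < n ∧ ∀ p : ℕ, p.Prime → p ∣ n / n.gcd k → CondAt n k x.val p) := by
  rcases hkn.lt_or_eq with hlt | heq
  · obtain ⟨m, rfl⟩ : ∃ m, k = m + 1 := ⟨k - 1, by omega⟩
    have h1 := (X147.Ssd.const_iff (n := n) m x).trans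
      (X147.Ssd.bad_iff_clause (X := x.val) hk1 hlt)
    constructor
    · rintro ⟨_, r, hr⟩
      exact Or.inr ⟨hlt, fun p hp hpn => h1.1 ⟨r, hr⟩ p hp hpn⟩
    · rintro (⟨h, _⟩ | ⟨_, h⟩)
      · omega
      · obtain ⟨r, hr⟩ := h1.2 (fun p hp hpn => h p hp hpn)
        exact ⟨X147.Ssd.nonempty_lt hk1 hlt x, r, hr⟩
  · have hfull : ∀ A : Finset (ZMod n), A.card = k ↔ A = univ := by
      intro A
      rw [← Finset.card_eq_iff_eq_univ, ZMod.card, heq]
    constructor
    · rintro ⟨⟨A, hA⟩, _⟩
      left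
      refine ⟨heq, ?_⟩
      unfold blocks at hA
      rw [Finset.mem_filter, Finset.mem_powersetCard] at hA
      have hAu : A = univ := (hfull A).1 hA.1.2
      rw [← hA.2, hAu, X147.Ssd.sum_univ]
    · rintro (⟨_, h⟩ | ⟨h, _⟩)
      · have hb : blocks n k x = {univ} := by
          ext A
          unfold blocks
          rw [Finset.mem_filter, Finset.mem_powersetCard, Finset.mem_singleton, hfull]
          constructor
          · rintro ⟨⟨_, h1⟩, _⟩
            exact h1
          · rintro rfl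
            exact ⟨⟨Finset.subset_univ _, rfl⟩, by rw [X147.Ssd.sum_univ, h]⟩
        refine ⟨⟨univ, by rw [hb]; exact Finset.mem_singleton_self _⟩, 1, fun y => ?_⟩
        rw [hb, Finset.filter_singleton, if_pos (Finset.mem_univ y), Finset.card_singleton]
      · omega

end Pool.Agent.Results.MP_9415b6_co.CyclicOneDesigns
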